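import Pool.Agent.R199.CV.Final
import Pool.Agent.R199.CV.JobFinal
import Pool.Agent.R199.CV.JobMax
import Pool.Agent.R199.CV.JobQ
import Pool.Agent.R199.CV.JobRegular
import Pool.Agent.R199.CV.JobRoot
import Pool.Agent.R199.CV.JobStart

/-!
# MP_d0f9b4_an: small products on components of a common-value image

Q1 is proved: for every non-monomial entire `f`, every admissible `T`, every `x ∈ I \ T` and every
`η > 0`, the connected component of `x` in `I \ T` contains a point `(s, a)` with `|s| < η ^ 2`.
-/

namespace Pool.Agent.Results.MP_d0f9b4_an.SmallProducts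

open Complex Set Filter Topology
open Pool.Agent.R199.CV

theorem result :
    ∀ f : ℂ → ℂ, Differentiable ℂ f → (¬ ∃ (c : ℂ) (k : ℕ), ∀ z, f z = c * z ^ k) →
      ∀ T : Set (ℂ × ℂ), Admissible f T → ∀ x ∈ ISet f \ T, ∀ η : ℝ, 0 < η →
        ∃ p ∈ connectedComponentIn (ISet f \ T) x, ‖p.1‖ < η ^ 2 :=
  final_of_jobs JobFinalJob.main JobMaxJob.main JobQJob.main JobRegularJob.main1
    JobRegularJob.main2 (JobStartJob.main JobRootJob.main)

end Pool.Agent.Results.MP_d0f9b4_an.SmallProducts
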